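import Mathlib
import Pool.Agent.H4.LB.Defs
import Pool.Agent.H4.LB.Fin

/-!
The l^p Brown-Douglas-Fillmore theorem for planar compact sets.

For `1 < p < ∞`, `p ≠ 2`, a nonempty compact set `M` of complex numbers, and two isomorphic
extensions `f`, `g` of `K(l^p)` by `C(M)`: the Fredholm indices of `f(z) - m` and `g(z) - m` agree
for all `m` outside `M` if and only if `[f] + [t] = [g] + [t]`, where `t` is any extension with the
properties of `θ_M`. An extension is given by a map `C(M) → B(l^p)` that is a homomorphism modulo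
compact operators.
-/

open scoped ENNReal

namespace Pool.Agent.Results.MP_c92038_an.LpBDF

open Pool.Agent.H4.LB

theorem result : ∀ (p : ℝ≥0∞) [Fact (1 ≤ p)], 1 < p → p ≠ ∞ → p ≠ 2 →
    ∀ (M : Set ℂ) [CompactSpace M], M.Nonempty → Q1For (lp (fun _ : ℕ => ℂ) p) M :=
  fun p _ h1 hp h2 M _ hM => main p h1 hp h2 M hM

end Pool.Agent.Results.MP_c92038_an.LpBDF
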